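import Mathlib

namespace Pool.Agent.Results.MP_c02c06_co.MaxMultiplicity

open Finset

/-- `a : ℤ → ℤ` is a nondecreasing sequence of positive integers `a 1 ≤ a 2 ≤ ...`, extended by
`a k = 0` for `k ≤ 0`, with `a (a n + a (n - 1) + ... + a (n - r + 1)) = n` for all `n ≥ 1`. -/
structure IsSol (r : ℕ) (a : ℤ → ℤ) : Prop where
  zero : ∀ k ≤ 0, a k = 0
  pos : ∀ n ≥ 1, 1 ≤ a n
  mono : ∀ n ≥ 1, a n ≤ a (n + 1)
  eqn : ∀ n ≥ 1, a (∑ i ∈ range r, a (n - i)) = n

/-- `a` is the almost Golomb sequence of order `r`: it satisfies the conditions `IsSol r a`, and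
each of its terms is as small as possible: whenever `b` satisfies the same conditions and agrees
with `a` before the index `n`, then `a n ≤ b n`. -/
def IsAlmostGolomb (r : ℕ) (a : ℤ → ℤ) : Prop :=
  IsSol r a ∧ ∀ b : ℤ → ℤ, IsSol r b → ∀ n : ℤ, (∀ k < n, b k = a k) → a n ≤ b n

/-- The set of indices `i ≥ 1` at which the value `n` occurs; `N(n)` is its cardinality. -/
def occ (a : ℤ → ℤ) (n : ℤ) : Set ℤ := {i : ℤ | 1 ≤ i ∧ a i = n}

/-- The recursion building the sequence: `G r n` is a function which is correct at all indices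
`≤ n + 3`. -/
def G (r : ℕ) : ℕ → (ℕ → ℕ)
  | 0 => fun k => if k = 0 then 0 else if k = 1 then 1 else 2
  | (n + 1) => Function.update (G r n) (n + 4)
      (if ∑ i ∈ range r, G r n (G r n (n + 3) + 1 - i) = n + 4 then G r n (n + 3) + 1
        else G r n (n + 3))

/-- the explicit sequence -/
def g (r n : ℕ) : ℕ := G r n n

/-- `S m = g m + g (m-1) + ... + g (m-r+1)` -/
def S (r m : ℕ) : ℕ := ∑ i ∈ range r, g r (m - i)

lemma G_stable (r n k : ℕ) (hk : k ≤ n + 3) : G r (n + 1) k = G r n k := by
  simp only [G]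
  rw [Function.update_of_ne]
  omega

lemma G_eq (r n m k : ℕ) (hk : k ≤ n + 3) : G r (n + m) k = G r n k := by
  induction m with
  | zero => rfl
  | succ m ih =>
    rw [← add_assoc, G_stable r (n + m) k (by omega), ih]

lemma G_eq_g (r n k : ℕ) (hk : k ≤ n + 3) : G r n k = g r k := by
  unfold g
  rcases le_total k n with h | h
  · obtain ⟨d, rfl⟩ := Nat.exists_eq_add_of_le h
    exact G_eq r k d k (by omega)
  · obtain ⟨d, hd⟩ := Nat.exists_eq_add_of_le h
    rw [hd, G_eq r n d (n + d) (by omega)]

lemma g0 (r : ℕ) : g r 0 = 0 := by simp [g, G]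
lemma g1 (r : ℕ) : g r 1 = 1 := by rw [← G_eq_g r 0 1 (by omega)]; simp [G]
lemma g2 (r : ℕ) : g r 2 = 2 := by rw [← G_eq_g r 0 2 (by omega)]; simp [G]
lemma g3 (r : ℕ) : g r 3 = 2 := by rw [← G_eq_g r 0 3 (by omega)]; simp [G]

lemma g_step_aux (r n : ℕ) : g r (n + 4) =
    if ∑ i ∈ range r, G r n (G r n (n + 3) + 1 - i) = n + 4 then G r n (n + 3) + 1
        else G r n (n + 3) := by
  rw [← G_eq_g r (n + 1) (n + 4) (by omega)]
  simp only [G, Function.update_self]

lemma g_succ_cases (r n : ℕ) : g r (n + 1) = g r n ∨ g r (n + 1) = g r n + 1 := by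
  rcases n with _ | _ | _ | n
  · right; rw [g1, g0]
  · right; rw [g1]; exact g2 r
  · left; rw [show (0 + 1 + 1 + 1 : ℕ) = 3 from rfl, show (0 + 1 + 1 : ℕ) = 2 from rfl, g2, g3]
  · have h := g_step_aux r n
    rw [G_eq_g r n (n + 3) (by omega)] at h
    rw [show n + 1 + 1 + 1 + 1 = n + 4 by ring, show n + 1 + 1 + 1 = n + 3 by ring]
    split_ifs at h with h'
    · right; exact h
    · left; exact h

lemma g_mono (r : ℕ) : Monotone (g r) := by
  refine monotone_nat_of_le_succ fun n => ?_
  rcases g_succ_cases r n with h | h <;> omega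

lemma g_lt (r n : ℕ) (hn : 3 ≤ n) : g r n + 1 ≤ n := by
  induction n, hn using Nat.le_induction with
  | base => rw [g3]
  | succ n hn ih => rcases g_succ_cases r n with h | h <;> omega

lemma g_le (r n : ℕ) : g r n ≤ n := by
  induction n with
  | zero => rw [g0]
  | succ n ih => rcases g_succ_cases r n with h | h <;> omega

lemma g_step (r n : ℕ) (hn : 3 ≤ n) : g r (n + 1) =
    if S r (g r n + 1) = n + 1 then g r n + 1 else g r n := by
  obtain ⟨m, rfl⟩ := Nat.exists_eq_add_of_le' hn
  have h := g_step_aux r m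
  rw [G_eq_g r m (m + 3) (by omega)] at h
  have h2 : ∑ i ∈ range r, G r m (g r (m + 3) + 1 - i) = S r (g r (m + 3) + 1) := by
    unfold S
    refine sum_congr rfl fun i _ => ?_
    have := g_lt r (m + 3) (by omega)
    exact G_eq_g r m _ (by omega)
  rw [h2] at h
  rw [show m + 3 + 1 = m + 4 by ring]
  exact h

/-- every value below a value taken is taken for a first time -/
lemma exists_first (r : ℕ) (w x : ℕ) (hx : 1 ≤ x) (hxw : x ≤ g r w) :
    ∃ p, p + 1 ≤ w ∧ g r (p + 1) = x ∧ g r p + 1 = x := by
  induction w with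
  | zero => rw [g0] at hxw; omega
  | succ w ih =>
    by_cases h : x ≤ g r w
    · obtain ⟨p, h1, h2, h3⟩ := ih h
      exact ⟨p, by omega, h2, h3⟩
    · rcases g_succ_cases r w with h' | h'
      · omega
      · exact ⟨w, le_rfl, by omega, by omega⟩

/-- a first position of `x ≥ 3` is `S r x` -/
lemma first_eq (r p x : ℕ) (hx : 3 ≤ x) (h1 : g r (p + 1) = x) (h2 : g r p + 1 = x) :
    S r x = p + 1 := by
  have hp : 3 ≤ p := by
    by_contra hlt
    have : g r p ≤ p := g_le r p
    have h5 : g r p ≤ g r 2 ∨ p ≥ 3 := by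
      left; exact g_mono r (by omega)
    rw [g2] at h5
    have h6 : g r (p + 1) ≤ g r 3 := g_mono r (by omega)
    rw [g3] at h6
    omega
  have h := g_step r p hp
  split_ifs at h with h'
  · rw [h2] at h'; exact h'
  · omega

lemma jump_at (r q v : ℕ) (hq : 3 ≤ q) (h : g r q = v) (hS : S r (v + 1) = q + 1) :
    g r (q + 1) = v + 1 := by
  have := g_step r q hq
  rw [h, hS] at this
  simpa using this

lemma S_succ (r v : ℕ) (hr : 1 ≤ r) : S r (v + 1) + g r (v + 1 - r) = S r v + g r (v + 1) := by
  obtain ⟨s, rfl⟩ := Nat.exists_eq_add_of_le' hr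
  unfold S
  rw [sum_range_succ' (fun i => g (s + 1) (v + 1 - i)) s,
    sum_range_succ (fun i => g (s + 1) (v - i)) s]
  have e : ∀ i ∈ range s, g (s + 1) (v + 1 - (i + 1)) = g (s + 1) (v - i) := by
    intro i _
    rw [show v + 1 - (i + 1) = v - i by omega]
  rw [sum_congr rfl e, show v + 1 - (s + 1) = v - s by omega, Nat.sub_zero]
  ring

lemma g_pos (r n : ℕ) (hn : 1 ≤ n) : 1 ≤ g r n := by
  rw [← g1 r]; exact g_mono r hn

lemma S_three (r : ℕ) (hr : 5 ≤ r) : S r 3 = 5 := by
  obtain ⟨s, rfl⟩ := Nat.exists_eq_add_of_le' hr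
  unfold S
  rw [show s + 5 = 3 + (s + 2) by ring, sum_range_add]
  have : ∀ i ∈ range (s + 2), g (3 + (s + 2)) (3 - (3 + i)) = 0 := by
    intro i _
    rw [show 3 - (3 + i) = 0 by omega, g0]
  rw [sum_congr rfl this]
  simp [sum_range_succ, g1, g2, g3]

lemma g4 (r : ℕ) (hr : 5 ≤ r) : g r 4 = 2 := by
  rw [g_step r 3 le_rfl, g3, S_three r hr]
  simp

lemma g5 (r : ℕ) (hr : 5 ≤ r) : g r 5 = 3 := by
  rw [g_step r 4 (by norm_num), g4 r hr, S_three r hr]
  simp

lemma M_ge (r : ℕ) (hr : 5 ≤ r) : 3 ≤ g r r := by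
  rw [← g5 r hr]; exact g_mono r hr

lemma M_lt (r : ℕ) (hr : 5 ≤ r) : g r r + 1 ≤ r := g_lt r r (by omega)

/-- Value `M + 1` (with `M = g r r`) comes after position `r`. -/
lemma S_M_succ (r : ℕ) (hr : 5 ≤ r) : r + 1 ≤ S r (g r r + 1) := by
  by_contra hlt
  push Not at hlt
  set M := g r r with hM
  have hM3 : 3 ≤ M := M_ge r hr
  have hMr : M + 1 ≤ r := M_lt r hr
  obtain ⟨p, hp1, hp2, hp3⟩ := exists_first r r M (by omega) le_rfl
  have hSM : S r M = p + 1 := first_eq r p M hM3 hp2 hp3
  have hs := S_succ r M (by omega)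
  rw [show M + 1 - r = 0 by omega, g0] at hs
  have hpos := g_pos r (M + 1) (by omega)
  obtain ⟨q, hq⟩ : ∃ q, S r (M + 1) = q + 1 := ⟨S r (M + 1) - 1, by omega⟩
  have hq1 : p + 1 ≤ q := by omega
  have hq2 : q ≤ r := by omega
  have e1 : g r q = M := by
    apply le_antisymm
    · exact g_mono r hq2
    · rw [← hp2]; exact g_mono r hq1
  have hq3 : 3 ≤ q := by
    have := g_le r q
    omega
  have := jump_at r q M hq3 e1 hq
  have h2 : g r (q + 1) ≤ g r r := g_mono r (by omega)
  omega

/-- The key lemma: a window of length `r` contains at most `M = g r r` jumps. -/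
lemma key (r n : ℕ) (hr : 5 ≤ r)
    (H : ∀ y, y + g r r ≤ n → g r y + 1 ≤ g r (y + g r r)) (w : ℕ) (hw : w ≤ n) :
    g r w ≤ g r (w - r) + g r r := by
  by_contra hcon
  push Not at hcon
  have hM3 : 3 ≤ g r r := M_ge r hr
  have hMr : g r r + 1 ≤ r := M_lt r hr
  have hSM := S_M_succ r hr
  generalize hM : g r r = M at *
  generalize hu : g r (w - r) = u at *
  -- first positions of `u+1` and `u+M+1`
  obtain ⟨p1, hp1, hp1a, hp1b⟩ := exists_first r w (u + 1) (by omega) (by omega)
  obtain ⟨p2, hp2, hp2a, hp2b⟩ := exists_first r w (u + M + 1) (by omega) (by omega)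
  have hlow : w - r ≤ p1 := by
    by_contra hlt
    push Not at hlt
    have := g_mono r (show p1 + 1 ≤ w - r by omega)
    omega
  -- position of value at least `M+1`
  have hbig : ∀ p, M + 1 ≤ g r p → r + 1 ≤ p := by
    intro p hp
    by_contra hlt
    push Not at hlt
    have := g_mono r (show p ≤ r by omega)
    omega
  have hp1pos : g r p1 ≤ p1 := g_le r p1
  by_cases hu0 : u ≤ 1
  · -- small cases
    have h1 : r + 1 ≤ p2 + 1 := hbig (p2 + 1) (by omega)
    have h3 : u = 0 ∨ u = 1 := by omega
    rcases h3 with h3 | h3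
    · -- `p1 = 0`
      have : p1 = 0 := by
        by_contra hne
        have := g_pos r p1 (by omega)
        omega
      omega
    · have h4 : p1 = 1 := by
        by_contra hne
        have : p1 ≠ 0 := by
          rintro rfl
          rw [g0] at hp1b; omega
        have := g_mono r (show 2 ≤ p1 by omega)
        rw [g2] at this
        omega
      have h5 : r + 1 ≤ p2 := hbig p2 (by omega)
      omega
  · push Not at hu0
    have e1 : S r (u + 1) = p1 + 1 := first_eq r p1 (u + 1) (by omega) hp1a hp1b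
    have e2 : S r (u + M + 1) = p2 + 1 := first_eq r p2 (u + M + 1) (by omega) hp2a hp2b
    have hwle : g r w ≤ w := g_le r w
    have hcase : r + S r (u + 1) ≤ S r (u + M + 1) := by
      by_cases hcase : r ≤ u + M + 1
      · unfold S
        have : r + ∑ i ∈ range r, g r (u + 1 - i) = ∑ i ∈ range r, (g r (u + 1 - i) + 1) := by
          rw [sum_add_distrib]; simp [add_comm]
        rw [this]
        apply sum_le_sum
        intro i hi
        rw [mem_range] at hi
        by_cases hi2 : i ≤ u + 1
        · have := H (u + 1 - i) (by omega)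
          rw [show u + 1 - i + M = u + M + 1 - i by omega] at this
          exact this
        · rw [show u + 1 - i = 0 by omega, g0]
          exact g_pos r _ (by omega)
      · push Not at hcase
        -- all windows in the initial segment
        have claim : ∀ t, t ≤ M → S r (u + 1 + t) + S r 1 ≥ S r (u + 1) + S r (1 + t) := by
          intro t
          induction t with
          | zero => intro _; simp
          | succ t ih =>
            intro ht
            have ih' := ih (by omega)
            have s1 := S_succ r (u + 1 + t) (by omega)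
            have s2 := S_succ r (1 + t) (by omega)
            rw [show u + 1 + t + 1 - r = 0 by omega, g0] at s1
            rw [show 1 + t + 1 - r = 0 by omega, g0] at s2
            have hm : g r (1 + t + 1) ≤ g r (u + 1 + t + 1) := g_mono r (by omega)
            rw [show u + 1 + (t + 1) = u + 1 + t + 1 by ring,
              show 1 + (t + 1) = 1 + t + 1 by ring]
            omega
        have c := claim M le_rfl
        have hS1 : S r 1 = 1 := by
          have s0 := S_succ r 0 (by omega)
          have hS0 : S r 0 = 0 := by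
            unfold S
            apply sum_eq_zero
            intro i _
            rw [Nat.zero_sub, g0]
          rw [hS0, show 0 + 1 - r = 0 by omega, g0, g1] at s0
          simpa using s0
        rw [show u + 1 + M = u + M + 1 by ring, show 1 + M = M + 1 by ring] at c
        omega
    omega

/-- The main induction: every window of length `M` contains a jump. -/
lemma window (r : ℕ) (hr : 5 ≤ r) (n : ℕ) :
    ∀ y, y + g r r ≤ n → g r y + 1 ≤ g r (y + g r r) := by
  induction n with
  | zero =>
    intro y hy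
    have := M_ge r hr
    omega
  | succ n H =>
    intro y hy
    rcases Nat.lt_or_ge (y + g r r) (n + 1) with h | h
    · exact H y (by omega)
    · have hyn : y + g r r = n + 1 := by omega
      by_contra hcon
      push Not at hcon
      have hM3 : 3 ≤ g r r := M_ge r hr
      have hMr : g r r + 1 ≤ r := M_lt r hr
      have hkey := fun w hw => key r n hr H w hw
      generalize hM : g r r = M at *
      have hmon : g r y ≤ g r (y + M) := g_mono r (by omega)
      have hv : g r (y + M) = g r y := by omega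
      rw [hyn] at hv
      generalize hvy : g r y = v at *
      have hv3 : 3 ≤ v := by
        by_contra hlt
        push Not at hlt
        -- y is at most 4
        have hy4 : y ≤ 4 := by
          by_contra hy5
          push Not at hy5
          have := g_mono r (show 5 ≤ y by omega)
          rw [g5 r hr] at this
          omega
        have h5 : n + 1 < 5 := by
          by_contra h5
          push Not at h5
          have := g_mono r h5
          rw [g5 r hr] at this
          omega
        have hy1 : y ≤ 1 := by omega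
        rcases Nat.eq_zero_or_pos y with h0 | h0
        · subst h0
          rw [g0] at hvy
          have := g_pos r (n + 1) (by omega)
          omega
        · have : y = 1 := by omega
          subst this
          rw [g1] at hvy
          have := g_mono r (show 2 ≤ n + 1 by omega)
          rw [g2] at this
          omega
      obtain ⟨p, hp1, hp2, hp3⟩ := exists_first r y v (by omega) (by omega)
      have hSv : S r v = p + 1 := first_eq r p v hv3 hp2 hp3
      have hs := S_succ r v (by omega)
      have hn3 : 3 ≤ n := by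
        have := g_le r y
        omega
      have hgn : g r n = v := by
        apply le_antisymm
        · rw [← hv]; exact g_mono r (by omega)
        · rw [← hvy]; exact g_mono r (by omega)
      have hvn : v + 1 ≤ n := by
        have := g_lt r n hn3
        omega
      have hup := hkey (v + 1) hvn
      have hlo : g r (v + 1 - r) + 1 ≤ g r (v + 1) := by
        by_cases hvr : r ≤ v + 1
        · have h1 := H (v + 1 - r) (by omega)
          have h2 : g r (v + 1 - r + M) ≤ g r (v + 1) := g_mono r (by omega)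
          omega
        · rw [show v + 1 - r = 0 by omega, g0]
          have := g_pos r (v + 1) (by omega)
          omega
      obtain ⟨q, hq⟩ : ∃ q, S r (v + 1) = q + 1 := ⟨S r (v + 1) - 1, by omega⟩
      have hq1 : p + 1 ≤ q := by omega
      have hq2 : q ≤ n := by omega
      have e1 : g r q = v := by
        apply le_antisymm
        · rw [← hgn]; exact g_mono r hq2
        · rw [← hp2]; exact g_mono r hq1
      have hq3 : 3 ≤ q := by
        have := g_le r q
        omega
      have h6 := jump_at r q v hq3 e1 hq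
      have h7 : g r (q + 1) ≤ g r (n + 1) := g_mono r (by omega)
      omega

/-- the explicit sequence indexed by all integers -/
def A (r : ℕ) (k : ℤ) : ℤ := (g r k.toNat : ℤ)

lemma A_nat (r k : ℕ) : A r (k : ℤ) = (g r k : ℤ) := by simp [A]

lemma A_nonpos (r : ℕ) (k : ℤ) (hk : k ≤ 0) : A r k = 0 := by
  simp [A, Int.toNat_of_nonpos hk, g0]

lemma A_sub (r m i : ℕ) : A r ((m : ℤ) - (i : ℤ)) = (g r (m - i) : ℤ) := by
  unfold A
  rw [Int.toNat_sub]

lemma A_sum (r m : ℕ) : ∑ i ∈ range r, A r ((m : ℤ) - (i : ℤ)) = (S r m : ℤ) := by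
  unfold S
  push_cast
  exact sum_congr rfl fun i _ => A_sub r m i

lemma unbounded (r : ℕ) (hr : 5 ≤ r) (k : ℕ) : k ≤ g r (k * g r r) := by
  induction k with
  | zero => simp
  | succ k ih =>
    have := window r hr _ (k * g r r) le_rfl
    rw [show (k + 1) * g r r = k * g r r + g r r by ring]
    omega

lemma first_exists (r : ℕ) (hr : 5 ≤ r) (x : ℕ) (hx : 1 ≤ x) :
    ∃ p, g r (p + 1) = x ∧ g r p + 1 = x := by
  obtain ⟨p, -, h1, h2⟩ := exists_first r _ x hx (unbounded r hr x)
  exact ⟨p, h1, h2⟩

lemma S_two (r : ℕ) (hr : 5 ≤ r) : S r 1 = 1 ∧ S r 2 = 3 := by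
  have hS0 : S r 0 = 0 := by
    unfold S
    apply sum_eq_zero
    intro i _
    rw [Nat.zero_sub, g0]
  have s0 := S_succ r 0 (by omega)
  rw [hS0, show 0 + 1 - r = 0 by omega, g0, g1] at s0
  have s1 := S_succ r 1 (by omega)
  rw [show 1 + 1 - r = 0 by omega, g0, show 1 + 1 = 2 by rfl, g2] at s1
  simp only [Nat.zero_add] at s0
  omega

lemma g_S (r : ℕ) (hr : 5 ≤ r) (n : ℕ) (hn : 1 ≤ n) : g r (S r n) = n := by
  obtain ⟨h1, h2⟩ := S_two r hr
  rcases Nat.lt_or_ge n 3 with h | h
  · have : n = 1 ∨ n = 2 := by omega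
    rcases this with rfl | rfl
    · rw [h1, g1]
    · rw [h2, g3]
  · obtain ⟨p, hp1, hp2⟩ := first_exists r hr n hn
    rw [first_eq r p n h hp1 hp2, hp1]

lemma A_isSol (r : ℕ) (hr : 5 ≤ r) : IsSol r (A r) where
  zero := A_nonpos r
  pos := by
    intro n hn
    obtain ⟨m, rfl⟩ := Int.eq_ofNat_of_zero_le (show 0 ≤ n by omega)
    rw [A_nat]
    exact_mod_cast g_pos r m (by omega)
  mono := by
    intro n hn
    obtain ⟨m, rfl⟩ := Int.eq_ofNat_of_zero_le (show 0 ≤ n by omega)
    have := g_mono r (Nat.le_succ m)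
    rw [show ((m : ℤ) + 1) = ((m + 1 : ℕ) : ℤ) by push_cast; ring, A_nat, A_nat]
    exact_mod_cast this
  eqn := by
    intro n hn
    obtain ⟨m, rfl⟩ := Int.eq_ofNat_of_zero_le (show 0 ≤ n by omega)
    rw [A_sum, A_nat, g_S r hr m (by omega)]

lemma A_min (r : ℕ) (hr : 5 ≤ r) (b : ℤ → ℤ) (hb : IsSol r b) (n : ℤ)
    (hbn : ∀ k < n, b k = A r k) : A r n ≤ b n := by
  rcases le_or_gt n 0 with h0 | h0
  · rw [A_nonpos r n h0, hb.zero n h0]
  obtain ⟨m, rfl⟩ := Int.eq_ofNat_of_zero_le h0.le
  have hm : 1 ≤ m := by omega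
  rcases Nat.lt_or_ge m 3 with h3 | h3
  · have : m = 1 ∨ m = 2 := by omega
    rcases this with rfl | rfl
    · have := hb.pos 1 le_rfl
      rw [A_nat, g1]
      exact_mod_cast this
    · rw [A_nat, g2]
      by_contra hcon
      have hb2 := hb.pos 2 (by norm_num)
      have h2 : b 2 = 1 := by
        push_cast at hcon
        omega
      have h1 : b 1 = 1 := by
        rw [hbn 1 (by norm_num)]
        have := A_nat r 1
        rw [g1] at this
        exact_mod_cast this
      have he := hb.eqn 2 (by norm_num)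
      obtain ⟨s, rfl⟩ := Nat.exists_eq_add_of_le hr
      rw [show 5 + s = 2 + (3 + s) by ring, sum_range_add] at he
      have hz : ∀ i ∈ range (3 + s), b (2 - ((2 + i : ℕ) : ℤ)) = 0 := by
        intro i _
        apply hb.zero
        push_cast
        omega
      rw [sum_congr rfl hz] at he
      simp only [sum_range_succ, sum_range_zero, sum_const_zero] at he
      norm_num at he
      rw [h2, h1] at he
      norm_num at he
      rw [h2] at he
      norm_num at he
  · obtain ⟨q, rfl⟩ := Nat.exists_eq_add_of_le' h3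
    rcases g_succ_cases r (q + 2) with h | h
    · rw [A_nat, show q + 3 = q + 2 + 1 by ring, h]
      have h1 := hb.mono ((q : ℤ) + 2) (by omega)
      rw [hbn ((q : ℤ) + 2) (by push_cast; omega)] at h1
      rw [show ((q : ℤ) + 2) = ((q + 2 : ℕ) : ℤ) by push_cast; ring, A_nat] at h1
      refine h1.trans (le_of_eq ?_)
      congr 1
    · -- a jump at `q + 3`
      have hx : 3 ≤ g r (q + 3) := by
        have := g_mono r (show 2 ≤ q + 2 by omega)
        rw [g2] at this
        rw [show q + 3 = q + 2 + 1 by ring]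
        omega
      have hS : S r (g r (q + 3)) = q + 3 :=
        first_eq r (q + 2) (g r (q + 3)) hx rfl (by rw [← h])
      have hlt : g r (q + 3) + 1 ≤ q + 3 := g_lt r (q + 3) (by omega)
      have he := hb.eqn ((g r (q + 3) : ℕ) : ℤ) (by
        have : 1 ≤ g r (q + 3) := by omega
        exact_mod_cast this)
      have hsum : ∑ i ∈ range r, b (((g r (q + 3) : ℕ) : ℤ) - (i : ℤ)) =
          ∑ i ∈ range r, A r (((g r (q + 3) : ℕ) : ℤ) - (i : ℤ)) := by
        refine sum_congr rfl fun i _ => hbn _ ?_
        omega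
      rw [hsum, A_sum, hS] at he
      rw [A_nat, he]

lemma A_isAlmostGolomb (r : ℕ) (hr : 5 ≤ r) : IsAlmostGolomb r (A r) :=
  ⟨A_isSol r hr, fun b hb n hbn => A_min r hr b hb n hbn⟩

lemma isAlmostGolomb_unique (r : ℕ) (a b : ℤ → ℤ) (ha : IsAlmostGolomb r a)
    (hb : IsAlmostGolomb r b) : a = b := by
  have key : ∀ m : ℕ, ∀ k : ℤ, k ≤ m → a k = b k := by
    intro m
    induction m with
    | zero =>
      intro k hk
      rw [ha.1.zero k (by exact_mod_cast hk), hb.1.zero k (by exact_mod_cast hk)]
    | succ m ih =>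
      intro k hk
      rcases lt_or_eq_of_le hk with h | h
      · exact ih k (by push_cast at h; omega)
      · subst h
        apply le_antisymm
        · refine ha.2 b hb.1 _ fun k hk => (ih k ?_).symm
          push_cast at hk; omega
        · refine hb.2 a ha.1 _ fun k hk => ih k ?_
          push_cast at hk; omega
  funext k
  exact key k.toNat k (Int.self_le_toNat k)

/-- the block of the value `x` -/
lemma occ_eq (r x p p' : ℕ) (hx : 1 ≤ x) (h1 : g r (p + 1) = x) (h2 : g r p + 1 = x)
    (h3 : g r (p' + 1) = x + 1) (h4 : g r p' = x) :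
    occ (A r) (x : ℤ) = Set.Icc ((p : ℤ) + 1) (p' : ℤ) := by
  ext i
  simp only [occ, Set.mem_ofPred_eq, Set.mem_Icc]
  constructor
  · rintro ⟨hi, hi2⟩
    obtain ⟨k, rfl⟩ := Int.eq_ofNat_of_zero_le (show 0 ≤ i by omega)
    rw [A_nat] at hi2
    have hk : g r k = x := by exact_mod_cast hi2
    constructor
    · by_contra hlt
      have := g_mono r (show k ≤ p by omega)
      omega
    · by_contra hlt
      have := g_mono r (show p' + 1 ≤ k by omega)
      omega
  · rintro ⟨hi, hi2⟩
    obtain ⟨k, rfl⟩ := Int.eq_ofNat_of_zero_le (show 0 ≤ i by omega)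
    have e1 := g_mono r (show p + 1 ≤ k by omega)
    have e2 := g_mono r (show k ≤ p' by omega)
    refine ⟨by omega, ?_⟩
    rw [A_nat]
    have : g r k = x := by omega
    exact_mod_cast this

lemma ncard_occ (r x p p' : ℕ) (hx : 1 ≤ x) (h1 : g r (p + 1) = x) (h2 : g r p + 1 = x)
    (h3 : g r (p' + 1) = x + 1) (h4 : g r p' = x) :
    (occ (A r) (x : ℤ)).Finite ∧ (occ (A r) (x : ℤ)).ncard = p' - p := by
  rw [occ_eq r x p p' hx h1 h2 h3 h4]
  refine ⟨Set.finite_Icc _ _, ?_⟩
  rw [← Finset.coe_Icc, Set.ncard_coe_finset, Int.card_Icc]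
  omega

/-- For every `r ≥ 5` there is exactly one almost Golomb sequence `a` of order `r`; every
`n ≥ 1` occurs in it finitely often, and the maximum over all `n ≥ 1` of the number `N(n)` of
occurrences of `n` is `N(r - 1)`. -/
theorem result (r : ℕ) (hr : 5 ≤ r) :
    (∃! a : ℤ → ℤ, IsAlmostGolomb r a) ∧
    ∀ a : ℤ → ℤ, IsAlmostGolomb r a →
      (∀ n ≥ 1, (occ a n).Finite) ∧
      IsGreatest {k : ℕ | ∃ n : ℤ, 1 ≤ n ∧ k = (occ a n).ncard} (occ a ((r : ℤ) - 1)).ncard := by
  refine ⟨⟨A r, A_isAlmostGolomb r hr, fun b hb =>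
    isAlmostGolomb_unique r b (A r) hb (A_isAlmostGolomb r hr)⟩, ?_⟩
  intro a ha
  obtain rfl : a = A r := isAlmostGolomb_unique r a (A r) ha (A_isAlmostGolomb r hr)
  have hM3 := M_ge r hr
  have main : ∀ x : ℕ, 1 ≤ x → (occ (A r) (x : ℤ)).Finite ∧
      (occ (A r) (x : ℤ)).ncard ≤ g r r := by
    intro x hx
    obtain ⟨p, hp1, hp2⟩ := first_exists r hr x hx
    obtain ⟨p', hp1', hp2'⟩ := first_exists r hr (x + 1) (by omega)
    have h4 : g r p' = x := by omega
    obtain ⟨hf, hc⟩ := ncard_occ r x p p' hx hp1 hp2 hp1' h4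
    refine ⟨hf, ?_⟩
    rw [hc]
    by_contra hlt
    have h5 := window r hr _ (p + 1) le_rfl
    have h6 := g_mono r (show p + 1 + g r r ≤ p' by omega)
    omega
  have heq : (occ (A r) ((r : ℤ) - 1)).ncard = g r r := by
    obtain ⟨x, hx⟩ : ∃ x, r = x + 1 := ⟨r - 1, by omega⟩
    have hx3 : 3 ≤ x := by omega
    obtain ⟨p, hp1, hp2⟩ := first_exists r hr x (by omega)
    obtain ⟨p', hp1', hp2'⟩ := first_exists r hr (x + 1) (by omega)
    have h4 : g r p' = x := by omega
    obtain ⟨hf, hc⟩ := ncard_occ r x p p' (by omega) hp1 hp2 hp1' h4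
    have e1 := first_eq r p x hx3 hp1 hp2
    have e2 := first_eq r p' (x + 1) (by omega) hp1' hp2'
    have e3 := S_succ r x (by omega)
    have e4 : x + 1 - r = 0 := by omega
    rw [e1, e2, e4, g0, ← hx] at e3
    have e5 : ((r : ℤ) - 1) = (x : ℤ) := by rw [hx]; push_cast; ring
    rw [e5, hc]
    omega
  refine ⟨?_, ⟨(r : ℤ) - 1, by omega, rfl⟩, ?_⟩
  · intro n hn
    obtain ⟨m, rfl⟩ := Int.eq_ofNat_of_zero_le (show 0 ≤ n by omega)
    exact (main m (by omega)).1
  · rintro k ⟨n, hn, rfl⟩
    obtain ⟨m, rfl⟩ := Int.eq_ofNat_of_zero_le (show 0 ≤ n by omega)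
    rw [heq]
    exact (main m (by omega)).2

end Pool.Agent.Results.MP_c02c06_co.MaxMultiplicity
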